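import Pool.Agent.Helper67.LM.Defs

/-! Packet LM BAD: the volume of the region near a ridge. -/

open MeasureTheory Set
open scoped ENNReal
open Pool.Agent.Helper47.AQ
open Pool.Agent.Helper67.LM

noncomputable section

namespace Pool.Agent.Helper61.LM

variable {ι : Type} [Fintype ι] [DecidableEq ι]

theorem T_le_one {x : ι → ℝ} (hx : x ∈ T ι) (i : ι) : x i ≤ 1 :=
  (Finset.single_le_sum (f := x) (fun j _ => hx.1 j) (Finset.mem_univ i)).trans hx.2

theorem bad_some (a b : ι) (hab : a ≠ b) (s t : ℝ) (hs : 0 ≤ s) (ht : 0 ≤ t) :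
    volume {x : ι → ℝ | x ∈ T ι ∧ bc x (some a) < s ∧ bc x (some b) < t} ≤
      ENNReal.ofReal (s * t) := by
  have h1 : {x : ι → ℝ | x ∈ T ι ∧ bc x (some a) < s ∧ bc x (some b) < t} ⊆
      Icc (0 : ι → ℝ) (fun i => if i = a then s else if i = b then t else 1) := by
    rintro x ⟨hx, hxa, hxb⟩
    refine ⟨fun i => hx.1 i, fun i => ?_⟩
    have hxa' : x a < s := hxa
    have hxb' : x b < t := hxb
    by_cases h1 : i = a
    · subst h1
      simp only [if_true]
      exact hxa'.le
    · by_cases h2 : i = b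
      · subst h2
        simp only [if_neg h1, if_true]
        exact hxb'.le
      · simp only [if_neg h1, if_neg h2]
        exact T_le_one hx i
  refine (measure_mono h1).trans ?_
  rw [Real.volume_Icc_pi, Finset.prod_eq_mul a b hab]
  · simp only [if_true, if_neg hab.symm, Pi.zero_apply, sub_zero]
    rw [ENNReal.ofReal_mul hs]
  · intro c _ hc
    simp [hc.1, hc.2]
  · intro h
    exact absurd (Finset.mem_univ _) h
  · intro h
    exact absurd (Finset.mem_univ _) h

theorem bad [Nonempty ι] (hSYM : ∀ o : Option ι,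
    Function.Involutive (co o : (ι → ℝ) → (ι → ℝ)) ∧ (∀ x : ι → ℝ, co o x ∈ T ι ↔ x ∈ T ι) ∧
    (∀ (x : ι → ℝ) (o' : Option ι), bc (co o x) o' = bc x (Equiv.swap none o o')) ∧
    (∃ A : (ι → ℝ) ≃ᵃ[ℝ] (ι → ℝ), ∀ x, A x = co o x) ∧
    (∀ S : Set (ι → ℝ), volume (co o '' S) = volume S) ∧
    MeasurePreserving (co o : (ι → ℝ) → (ι → ℝ)) volume volume)
    (j k : Option ι) (hjk : j ≠ k) (s t : ℝ) (hs : 0 ≤ s) (ht : 0 ≤ t)
    (hst : s + t < 1) :
    volume {x : ι → ℝ | x ∈ T ι ∧ bc x j < s ∧ bc x k < t} ≤ ENNReal.ofReal (s * t) := by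
  have key : ∀ (b : ι) (s t : ℝ), 0 ≤ s → 0 ≤ t → s + t < 1 →
      volume {x : ι → ℝ | x ∈ T ι ∧ bc x none < s ∧ bc x (some b) < t} ≤
        ENNReal.ofReal (s * t) := by
    intro b s t hs ht hst
    by_cases h : ∃ a, a ≠ b
    · obtain ⟨a, hab⟩ := h
      obtain ⟨-, h2, h3, -, h5, -⟩ := hSYM (some a)
      rw [← h5]
      refine (measure_mono ?_).trans (bad_some a b hab s t hs ht)
      rintro _ ⟨x, ⟨hx, hx1, hx2⟩, rfl⟩
      refine ⟨(h2 x).2 hx, ?_, ?_⟩
      · rw [h3, Equiv.swap_apply_right]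
        exact hx1
      · rw [h3, Equiv.swap_apply_of_ne_of_ne (by simp)]
        · exact hx2
        · intro h
          exact hab (Option.some.inj h).symm
    · have hemp : {x : ι → ℝ | x ∈ T ι ∧ bc x none < s ∧ bc x (some b) < t} = ∅ := by
        rw [Set.eq_empty_iff_forall_notMem]
        rintro x ⟨hx, hx1, hx2⟩
        have h1 : ∑ i, x i = x b := by
          apply Finset.sum_eq_single_of_mem b (Finset.mem_univ b)
          intro c _ hc
          exact absurd ⟨c, hc⟩ h
        have h2 : bc x none = 1 - x b := by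
          change 1 - ∑ i, x i = 1 - x b
          rw [h1]
        have h3 : bc x (some b) = x b := rfl
        rw [h2] at hx1
        rw [h3] at hx2
        linarith
      rw [hemp, measure_empty]
      exact zero_le
  rcases j with _ | a
  · rcases k with _ | b
    · exact absurd rfl hjk
    · exact key b s t hs ht hst
  · rcases k with _ | b
    · have := key a t s ht hs (by linarith)
      rw [mul_comm s t]
      refine le_trans (measure_mono ?_) this
      rintro x ⟨hx, hx1, hx2⟩
      exact ⟨hx, hx2, hx1⟩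
    · exact bad_some a b (fun h => hjk (by rw [h])) s t hs ht

end Pool.Agent.Helper61.LM
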