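import Pool.Agent.Helper67.LM.Defs

/-! Packet LM EPS: a truncated simplex. -/

open MeasureTheory Set Filter Topology
open scoped ENNReal Pointwise
open Pool.Agent.Helper47.AQ
open Pool.Agent.Helper67.LM

noncomputable section

namespace Pool.Agent.Helper61.LM

variable {ι : Type} [Fintype ι]

theorem T_isCompact : IsCompact (T ι) := by
  have h1 : IsClosed (T ι) := by
    have h2 : T ι = (⋂ i, {x : ι → ℝ | 0 ≤ x i}) ∩ {x | ∑ i, x i ≤ 1} := by
      ext x
      simp [T]
    rw [h2]
    refine IsClosed.inter (isClosed_iInter fun i => isClosed_le continuous_const (continuous_apply i))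
      (isClosed_le (continuous_finsetSum _ fun i _ => continuous_apply i) continuous_const)
  refine IsCompact.of_isClosed_subset (isCompact_Icc (a := (0 : ι → ℝ)) (b := 1)) h1 ?_
  intro x hx
  refine ⟨fun i => hx.1 i, fun i => ?_⟩
  exact (Finset.single_le_sum (f := x) (fun j _ => hx.1 j) (Finset.mem_univ i)).trans hx.2

/-- The case of the vertex `0`. -/
theorem eps_none [Nonempty ι] {K : Set (ι → ℝ)} (hT : K ⊆ T ι)
    (e : ℝ) (he0 : 0 ≤ e) (he1 : e ≤ 1) (h : ∀ y ∈ K, bc y none ≤ 1 - e) :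
    (volume K).toReal ≤ (1 - e ^ Fintype.card ι) * (volume (T ι)).toReal := by
  have hTfin : volume (T ι) ≠ ∞ := T_isCompact.measure_lt_top.ne
  have hcard : Fintype.card ι ≠ 0 := Fintype.card_ne_zero
  rcases he0.eq_or_lt with he | he
  · subst he
    rw [zero_pow hcard, sub_zero, one_mul]
    exact ENNReal.toReal_mono hTfin (measure_mono hT)
  have key : ∀ r : ℝ, 0 < r → r < e →
      (volume K).toReal ≤ (1 - r ^ Fintype.card ι) * (volume (T ι)).toReal := by
    intro r hr0 hre
    have hr1 : r ≤ 1 := by linarith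
    have hsub : r • T ι ⊆ T ι := by
      rintro _ ⟨x, hx, rfl⟩
      refine ⟨fun i => ?_, ?_⟩
      · exact mul_nonneg hr0.le (hx.1 i)
      · change ∑ i, r * x i ≤ 1
        rw [← Finset.mul_sum]
        have h0 : 0 ≤ ∑ i, x i := Finset.sum_nonneg fun i _ => hx.1 i
        have := hx.2
        nlinarith
    have hK : K ⊆ T ι \ (r • T ι) := by
      intro y hy
      refine ⟨hT hy, ?_⟩
      rintro ⟨x, hx, rfl⟩
      have h1 : 1 - ∑ i, (r • x) i ≤ 1 - e := h _ hy
      have h2 : ∑ i, (r • x) i = r * ∑ i, x i := by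
        rw [Finset.mul_sum]
        rfl
      rw [h2] at h1
      have h0 : 0 ≤ ∑ i, x i := Finset.sum_nonneg fun i _ => hx.1 i
      have := hx.2
      nlinarith
    have hrT : IsCompact (r • T ι) := T_isCompact.smul r
    have h1 : volume K ≤ volume (T ι) - volume (r • T ι) := by
      rw [← measure_sdiff hsub hrT.measurableSet.nullMeasurableSet hrT.measure_lt_top.ne]
      exact measure_mono hK
    have h2 : volume (r • T ι) = ENNReal.ofReal (r ^ Fintype.card ι) * volume (T ι) := by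
      rw [Measure.addHaar_smul, Module.finrank_fintype_fun_eq_card, abs_of_nonneg (by positivity)]
    have h3 : (volume K).toReal ≤ (volume (T ι)).toReal - (volume (r • T ι)).toReal := by
      rw [← ENNReal.toReal_sub_of_le (measure_mono hsub) hTfin]
      exact ENNReal.toReal_mono (ne_top_of_le_ne_top hTfin tsub_le_self) h1
    rw [h2, ENNReal.toReal_mul, ENNReal.toReal_ofReal (by positivity)] at h3
    linarith
  have hlim : Tendsto (fun r : ℝ => (1 - r ^ Fintype.card ι) * (volume (T ι)).toReal) (𝓝[<] e)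
      (𝓝 ((1 - e ^ Fintype.card ι) * (volume (T ι)).toReal)) := by
    have : Continuous fun r : ℝ => (1 - r ^ Fintype.card ι) * (volume (T ι)).toReal := by
      fun_prop
    exact (this.tendsto e).mono_left nhdsWithin_le_nhds
  refine ge_of_tendsto hlim ?_
  filter_upwards [Ioo_mem_nhdsLT he] with r hr
  exact key r hr.1 hr.2

theorem eps [DecidableEq ι] [Nonempty ι] (hSYM : ∀ o : Option ι,
    Function.Involutive (co o : (ι → ℝ) → (ι → ℝ)) ∧ (∀ x : ι → ℝ, co o x ∈ T ι ↔ x ∈ T ι) ∧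
    (∀ (x : ι → ℝ) (o' : Option ι), bc (co o x) o' = bc x (Equiv.swap none o o')) ∧
    (∃ A : (ι → ℝ) ≃ᵃ[ℝ] (ι → ℝ), ∀ x, A x = co o x) ∧
    (∀ S : Set (ι → ℝ), volume (co o '' S) = volume S) ∧
    MeasurePreserving (co o : (ι → ℝ) → (ι → ℝ)) volume volume)
    {K : Set (ι → ℝ)} (hT : K ⊆ T ι) (o : Option ι)
    (e : ℝ) (he0 : 0 ≤ e) (he1 : e ≤ 1) (h : ∀ y ∈ K, bc y o ≤ 1 - e) :
    (volume K).toReal ≤ (1 - e ^ Fintype.card ι) * (volume (T ι)).toReal := by
  obtain ⟨-, h2, h3, -, h5, -⟩ := hSYM o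
  rw [← h5 K]
  refine eps_none ?_ e he0 he1 ?_
  · rintro _ ⟨x, hx, rfl⟩
    exact (h2 x).2 (hT hx)
  · rintro _ ⟨x, hx, rfl⟩
    rw [h3, Equiv.swap_apply_left]
    exact h x hx

end Pool.Agent.Helper61.LM
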