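import Pool.Agent.Helper78.LM.Goals

/-!
# ACC, NPV: counting of guess paths (project LM)
-/

namespace Pool.Agent.Helper61.LM

open Pool.Agent.Helper78.LM Pool.Agent.Helper51.ZP Matrix Finset

theorem card_cons {α : Type*} [Fintype α] [DecidableEq α] (n : ℕ) (P : List α → Prop)
    [DecidablePred P] :
    (univ.filter fun ps : Fin (n + 1) → α => P (List.ofFn ps)).card =
      ∑ p : α, (univ.filter fun ps : Fin n → α => P (p :: List.ofFn ps)).card := by
  simp_rw [Finset.card_filter]
  rw [← (Fin.consEquiv (fun _ : Fin (n + 1) => α)).sum_comp, Fintype.sum_prod_type]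
  apply Finset.sum_congr rfl
  intro p _
  apply Finset.sum_congr rfl
  intro ps _
  have : List.ofFn ((Fin.consEquiv (fun _ : Fin (n + 1) => α)) (p, ps)) = p :: List.ofFn ps := by
    rw [List.ofFn_succ]
    simp [Fin.consEquiv]
  rw [this]

theorem npv_aux (A : LinMachine) (x : List Bool) : ∀ (n t : ℕ) (c : Ctl),
    (univ.filter fun ps : Fin n → Bool × Bool => gacc A x t c (List.ofFn ps) = true).card ≤
      2 ^ (n + ((List.range n).filter fun i => A.reads (x, t + i)).length) := by
  intro n
  induction n with
  | zero =>
    intro t c
    refine (Finset.card_filter_le _ _).trans ?_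
    simp
  | succ n ih =>
    intro t c
    rw [card_cons n (fun l => gacc A x t c l = true)]
    have hlen : ((List.range (n + 1)).filter fun i => A.reads (x, t + i)).length =
        (if A.reads (x, t) = true then 1 else 0) +
          ((List.range n).filter fun i => A.reads (x, t + 1 + i)).length := by
      rw [List.range_succ_eq_map, List.filter_cons, List.filter_map, Nat.add_zero]
      have e : ((fun i => A.reads (x, t + i)) ∘ Nat.succ) = fun i => A.reads (x, t + 1 + i) := by
        funext i
        simp only [Function.comp]
        congr 2
        omega
      rw [e]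
      split_ifs with h
      · simp [add_comm]
      · simp
    rw [hlen]
    by_cases h : A.reads (x, t) = true
    · rw [if_pos h]
      have h1 : ∀ p : Bool × Bool, (univ.filter fun ps : Fin n → Bool × Bool =>
          gacc A x t c (p :: List.ofFn ps) = true).card ≤
          2 ^ (n + ((List.range n).filter fun i => A.reads (x, t + 1 + i)).length) := by
        intro p
        refine le_trans (le_of_eq ?_) (ih (t + 1) (cstep A x t c p))
        congr 1
        apply Finset.filter_congr
        intro ps _
        simp [gacc, h]
      refine (Finset.sum_le_sum fun p _ => h1 p).trans ?_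
      simp only [Finset.sum_const, Finset.card_univ, Fintype.card_prod, Fintype.card_bool,
        smul_eq_mul]
      refine le_of_eq ?_
      rw [show n + 1 + (1 + ((List.range n).filter fun i => A.reads (x, t + 1 + i)).length) =
        (n + ((List.range n).filter fun i => A.reads (x, t + 1 + i)).length) + 2 by omega, pow_add]
      ring
    · rw [if_neg h]
      have h1 : ∀ b : Bool, (univ.filter fun ps : Fin n → Bool × Bool =>
          gacc A x t c ((b, false) :: List.ofFn ps) = true).card ≤
          2 ^ (n + ((List.range n).filter fun i => A.reads (x, t + 1 + i)).length) := by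
        intro b
        exact ih (t + 1) (cstep A x t c (b, false))
      have h2 : ∀ b : Bool, (univ.filter fun ps : Fin n → Bool × Bool =>
          gacc A x t c ((b, true) :: List.ofFn ps) = true).card = 0 := by
        intro b
        rw [Finset.card_eq_zero, Finset.filter_eq_empty_iff]
        intro ps _
        simp [gacc, h]
      rw [Fintype.sum_prod_type]
      simp only [Fintype.sum_bool, h2]
      have h3 := h1 true
      have h4 := h1 false
      rw [show n + 1 + (0 + ((List.range n).filter fun i => A.reads (x, t + 1 + i)).length) =
        (n + ((List.range n).filter fun i => A.reads (x, t + 1 + i)).length) + 1 by omega, pow_succ]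
      omega

theorem npv : Pool.Agent.Helper78.LM.NpvStmt := by
  intro A x
  have h := npv_aux A x (A.stages x) 0 c0
  simp only [Nat.zero_add] at h
  exact h

theorem acc_aux (A : LinMachine) (x : List Bool) : ∀ (n t : ℕ) (c : Conf (A.dim x))
    [DecidablePred fun ρ : List Bool => ∃ c', A.run x t ρ c = some c' ∧ c'.q = 1 ∧ c'.st = []],
    (univ.filter fun ρ : Fin n → Bool => ∃ c', A.run x t (List.ofFn ρ) c = some c' ∧
      c'.q = 1 ∧ c'.st = []).card =
    (univ.filter fun ps : Fin n → Bool × Bool =>
      gacc A x t (c.q, c.st, c.o) (List.ofFn ps) = true ∧
        ∀ e ∈ errs A x t (c.q, c.st, c.o) c.v (List.ofFn ps), e = 0).card := by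
  classical
  intro n
  induction n with
  | zero =>
    intro t c _
    simp only [Finset.card_filter, List.ofFn_zero]
    simp only [LinMachine.run, gacc, errs]
    simp
  | succ n ih =>
    intro t c _
    rw [card_cons n (fun l => ∃ c', A.run x t l c = some c' ∧ c'.q = 1 ∧ c'.st = []),
      card_cons n (fun l => gacc A x t (c.q, c.st, c.o) l = true ∧
        ∀ e ∈ errs A x t (c.q, c.st, c.o) c.v l, e = 0), Fintype.sum_prod_type]
    apply Finset.sum_congr rfl
    intro b _
    rw [Fintype.sum_bool]
    have hval : ∀ g : Bool, toVec (A.dim x) (A.form (x, t)) ⬝ᵥ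
        gmem A x t (c.q, c.st, c.o) c.v (b, g) = A.value x t b c := fun g => rfl
    have hz : A.value x t b c = 0 ∨ A.value x t b c = 1 := by
      generalize A.value x t b c = z
      revert z; decide
    -- the terms
    have hR : ∀ g : Bool, (univ.filter fun ps : Fin n → Bool × Bool =>
        gacc A x t (c.q, c.st, c.o) ((b, g) :: List.ofFn ps) = true ∧
        ∀ e ∈ errs A x t (c.q, c.st, c.o) c.v ((b, g) :: List.ofFn ps), e = 0).card =
        if (g = false ∨ A.reads (x, t) = true) ∧ A.value x t b c + b2z g = 0 then
          (univ.filter fun ps : Fin n → Bool × Bool =>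
            gacc A x (t + 1) (A.next (A.view x t b c), A.push (A.view x t b c) ++ c.st.tail, g)
              (List.ofFn ps) = true ∧
            ∀ e ∈ errs A x (t + 1) (A.next (A.view x t b c), A.push (A.view x t b c) ++ c.st.tail,
              g) (A.mem x t b c) (List.ofFn ps), e = 0).card
        else 0 := by
      intro g
      split_ifs with hg
      · congr 1
        apply Finset.filter_congr
        intro ps _
        rw [gacc, errs, Bool.and_eq_true, List.forall_mem_cons, hval g]
        constructor
        · rintro ⟨⟨_, h1⟩, _, h2⟩
          exact ⟨h1, h2⟩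
        · rintro ⟨h1, h2⟩
          refine ⟨⟨?_, h1⟩, hg.2, h2⟩
          rcases hg.1 with h3 | h3
          · simp [h3]
          · simp [h3]
      · rw [Finset.card_eq_zero, Finset.filter_eq_empty_iff]
        intro ps _
        rw [gacc, errs, Bool.and_eq_true, List.forall_mem_cons, hval g]
        rintro ⟨⟨h0, _⟩, h1, _⟩
        apply hg
        refine ⟨?_, h1⟩
        cases g
        · exact Or.inl rfl
        · right; simpa using h0
    rw [hR, hR]
    have hL : (univ.filter fun ρ : Fin n → Bool => ∃ c', A.run x t (b :: List.ofFn ρ) c = some c' ∧
        c'.q = 1 ∧ c'.st = []).card =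
        if A.reads (x, t) = true ∨ A.value x t b c = 0 then
          (univ.filter fun ps : Fin n → Bool × Bool =>
            gacc A x (t + 1) (A.next (A.view x t b c), A.push (A.view x t b c) ++ c.st.tail,
              decide (A.value x t b c = 1)) (List.ofFn ps) = true ∧
            ∀ e ∈ errs A x (t + 1) (A.next (A.view x t b c), A.push (A.view x t b c) ++ c.st.tail,
              decide (A.value x t b c = 1)) (A.mem x t b c) (List.ofFn ps), e = 0).card
        else 0 := by
      split_ifs with h
      · have ih' := ih (t + 1) ⟨A.next (A.view x t b c), A.push (A.view x t b c) ++ c.st.tail,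
          A.mem x t b c, decide (A.value x t b c = 1)⟩
        rw [← ih']
        congr 1
        apply Finset.filter_congr
        intro ρ _
        rw [LinMachine.run, LinMachine.step, if_pos h, Option.bind_some]
      · rw [Finset.card_eq_zero, Finset.filter_eq_empty_iff]
        intro ρ _
        rw [LinMachine.run, LinMachine.step, if_neg h, Option.bind_none]
        simp
    refine Eq.trans ?_ (hL.trans ?_)
    · congr
    · rcases hz with h0 | h1
      · rw [if_pos (Or.inr h0), if_neg, if_pos, zero_add]
        · rw [h0]; rfl
        · exact ⟨Or.inl rfl, by rw [h0]; decide⟩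
        · rw [h0]
          rintro ⟨_, h⟩
          revert h
          decide
      · have hf : ¬ ((false = false ∨ A.reads (x, t) = true) ∧ A.value x t b c + b2z false = 0) := by
          rw [h1]
          rintro ⟨_, h⟩
          revert h
          decide
        rw [if_neg hf, add_zero]
        by_cases hr : A.reads (x, t) = true
        · rw [if_pos (Or.inl hr), if_pos]
          · rw [h1]; rfl
          · exact ⟨Or.inr hr, by rw [h1]; decide⟩
        · rw [if_neg, if_neg]
          · rintro ⟨h | h, _⟩
            · simp at h
            · exact hr h
          · rintro (h | h)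
            · exact hr h
            · rw [h1] at h
              revert h
              decide

theorem acc : Pool.Agent.Helper78.LM.AccStmt := by
  classical
  intro A x
  have h := acc_aux A x (A.stages x) 0 ⟨0, [], 0, false⟩
  rw [LinMachine.acc, Nat.card_eq_fintype_card, Fintype.card_subtype]
  refine Eq.trans ?_ (h.trans ?_)
  · congr
  · rfl

end Pool.Agent.Helper61.LM
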