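import Pool.Agent.Helper78.LM.Goals

/-!
# HSA: the sum of the signs over all initial values of a shift register (project LM)
-/

namespace Pool.Agent.Helper61.LM

open Pool.Agent.Helper78.LM Pool.Agent.Helper51.ZP

theorem nodup_dbl {l : List (List Bool)} (h : l.Nodup) : (dbl l).Nodup := by
  rw [dbl]
  refine List.Nodup.append (h.map ?_) (h.map ?_) ?_
  · intro a b hab
    simpa using hab
  · intro a b hab
    simpa using hab
  · intro v hv hw
    rw [List.mem_map] at hv hw
    obtain ⟨a, _, rfl⟩ := hv
    obtain ⟨b, _, hb⟩ := hw
    simp at hb

theorem nodup_vecs (N : ℕ) : (vecs N).Nodup := by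
  have key : ∀ i, ((fun l : List (List Bool) => if l.length < N then dbl l else l)^[i]
      [[]]).Nodup := by
    intro i
    induction i with
    | zero => simp
    | succ i ih =>
      rw [Function.iterate_succ_apply']
      set l := (fun l : List (List Bool) => if l.length < N then dbl l else l)^[i] [[]]
      by_cases h : l.length < N
      · simp only [if_pos h]
        exact nodup_dbl ih
      · simp only [if_neg h]
        exact ih
  exact key N

/-- sum of two vectors -/
def vadd (s s' : List Bool) : List Bool := List.zipWith (fun a b => xor a b) s s'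

theorem par_cons (b : Bool) (l : List Bool) : par (b :: l) = xor b (par l) := by
  rw [par_eq, par_eq, List.map_cons, List.sum_cons, z2b_add, z2b_b2z]

theorem par_add : ∀ c s s' : List Bool, s.length = c.length → s'.length = c.length →
    par (List.zipWith (fun a b => a && b) c (vadd s s')) =
      xor (par (List.zipWith (fun a b => a && b) c s)) (par (List.zipWith (fun a b => a && b) c s'))
  | [], _, _, _, _ => by simp [par]
  | a :: c, [], _, h, _ => by simp at h
  | a :: c, _ :: _, [], _, h => by simp at h
  | a :: c, b :: s, b' :: s', h, h' => by
    have ih := par_add c s s' (by simpa using h) (by simpa using h')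
    rw [vadd] at ih
    rw [vadd, List.zipWith_cons_cons, List.zipWith_cons_cons, List.zipWith_cons_cons,
      List.zipWith_cons_cons, par_cons, par_cons, par_cons, ih]
    generalize par (List.zipWith (fun a b => a && b) c s) = u
    generalize par (List.zipWith (fun a b => a && b) c s') = v
    have key : ∀ a b b' u v : Bool, xor (a && xor b b') (xor u v) =
      xor (xor (a && b) u) (xor (a && b') v) := by decide
    exact key a b b' u v

theorem length_vadd {s s' : List Bool} (h : s.length = s'.length) :
    (vadd s s').length = s.length := by
  rw [vadd, List.length_zipWith, h, min_self]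

theorem length_stp {c s : List Bool} (h : 0 < s.length) : (stp c s).length = s.length := by
  rw [stp, List.length_append, List.length_tail, List.length_singleton]
  omega

theorem stp_add {c s s' : List Bool} (h : s.length = c.length) (h' : s'.length = c.length) :
    stp c (vadd s s') = vadd (stp c s) (stp c s') := by
  rw [stp, par_add c s s' h h', stp, stp]
  rw [vadd, vadd, List.zipWith_append (by simp [h, h'])]
  congr 1
  cases s <;> cases s' <;> simp_all

theorem iter_len {c s : List Bool} (h0 : 0 < s.length) (i : ℕ) :
    ((stp c)^[i] s).length = s.length := by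
  induction i with
  | zero => rfl
  | succ i ih => rw [Function.iterate_succ_apply', length_stp (by omega), ih]

theorem iter_add {c s s' : List Bool} (h : s.length = c.length) (h' : s'.length = c.length)
    (h0 : 0 < c.length) (i : ℕ) :
    (stp c)^[i] (vadd s s') = vadd ((stp c)^[i] s) ((stp c)^[i] s') := by
  induction i with
  | zero => rfl
  | succ i ih =>
    rw [Function.iterate_succ_apply', ih, stp_add, Function.iterate_succ_apply',
      Function.iterate_succ_apply']
    · rw [iter_len (by omega), h]
    · rw [iter_len (by omega), h']

theorem headD_vadd {s s' : List Bool} (h : 0 < s.length) (h' : 0 < s'.length) :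
    (vadd s s').headD false = xor (s.headD false) (s'.headD false) := by
  cases s with
  | nil => simp at h
  | cons a s => cases s' with
    | nil => simp at h'
    | cons b s' => simp [vadd]

theorem b2z_xor (a b : Bool) : b2z (xor a b) = b2z a + b2z b := by
  revert a b; decide

theorem lfsr_getD (c s : List Bool) {T j : ℕ} (hj : j < T) :
    (lfsr c s T).getD j false = ((stp c)^[j] s).headD false := by
  rw [lfsr, List.getD_eq_getElem?_getD, List.getElem?_map, List.getElem?_range hj]
  rfl

theorem lprod_add {c s s' : List Bool} (h : s.length = c.length) (h' : s'.length = c.length)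
    (h0 : 0 < c.length) (T : ℕ) (e : ℕ → ZMod 2) :
    lprod c (vadd s s') T e = lprod c s T e + lprod c s' T e := by
  rw [lprod, lprod, lprod, ← Finset.sum_add_distrib]
  apply Finset.sum_congr rfl
  intro j hj
  rw [Finset.mem_range] at hj
  rw [lfsr_getD _ _ hj, lfsr_getD _ _ hj, lfsr_getD _ _ hj, iter_add h h' h0, headD_vadd, b2z_xor,
    add_mul]
  · rw [iter_len (by omega)]; omega
  · rw [iter_len (by omega)]; omega

theorem vadd_vadd : ∀ s s' : List Bool, s.length = s'.length → vadd (vadd s s') s' = s
  | [], [], _ => rfl
  | [], _ :: _, h => by simp at h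
  | _ :: _, [], h => by simp at h
  | a :: s, b :: s', h => by
    have ih := vadd_vadd s s' (by simpa using h)
    simp only [vadd] at ih
    simp only [vadd, List.zipWith_cons_cons, ih, List.cons.injEq, and_true]
    have key : ∀ a b : Bool, xor (xor a b) b = a := by decide
    exact key a b

theorem sgnZ_add_one (z : ZMod 2) : sgnZ (z + 1) = - sgnZ z := by
  have : z = 0 ∨ z = 1 := by revert z; decide
  rcases this with rfl | rfl
  · simp [sgnZ]
  · have : (1 + 1 : ZMod 2) = 0 := by decide
    simp [sgnZ, this]

theorem hsa : Pool.Agent.Helper78.LM.HsaStmt := by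
  classical
  intro ι N T I e hN c hc
  obtain ⟨k, hk1, hk2⟩ := vecs_spec N
  have hk0 : 0 < k := by
    rcases Nat.eq_zero_or_pos k with h | h
    · subst h; simp at hk1; omega
    · exact h
  have hck : c.length = k := (hk2 c).1 hc
  have hnd := nodup_vecs N
  rw [← List.sum_toFinset _ hnd, Finset.sum_comm, ← List.toFinset_card_of_nodup hnd,
    Finset.card_filter, Nat.cast_sum, Finset.mul_sum]
  apply Finset.sum_congr rfl
  intro i _
  by_cases h : ∀ s ∈ vecs N, lprod c s T (e i) = 0
  · rw [if_pos h, Nat.cast_one, mul_one]
    rw [Finset.sum_congr rfl (g := fun _ => (1 : ℤ))]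
    · simp
    · intro s hs
      rw [h s (List.mem_toFinset.1 hs)]
      simp [sgnZ]
  · rw [if_neg h, Nat.cast_zero, mul_zero]
    push Not at h
    obtain ⟨s₀, hs₀, h1⟩ := h
    have h2 : lprod c s₀ T (e i) = 1 := by
      revert h1
      generalize lprod c s₀ T (e i) = z
      revert z
      decide
    have hl₀ : s₀.length = k := (hk2 _).1 hs₀
    have key : ∑ s ∈ (vecs N).toFinset, sgnZ (lprod c s T (e i)) =
        ∑ s ∈ (vecs N).toFinset, - sgnZ (lprod c s T (e i)) := by
      refine Finset.sum_nbij' (fun s => vadd s s₀) (fun s => vadd s s₀) ?_ ?_ ?_ ?_ ?_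
      · intro s hs
        rw [List.mem_toFinset, hk2] at hs ⊢
        rw [length_vadd (by omega), hs]
      · intro s hs
        rw [List.mem_toFinset, hk2] at hs ⊢
        rw [length_vadd (by omega), hs]
      · intro s hs
        rw [List.mem_toFinset, hk2] at hs
        exact vadd_vadd s s₀ (by omega)
      · intro s hs
        rw [List.mem_toFinset, hk2] at hs
        exact vadd_vadd s s₀ (by omega)
      · intro s hs
        rw [List.mem_toFinset, hk2] at hs
        rw [lprod_add (by omega) (by omega) (by omega), h2, sgnZ_add_one, neg_neg]
    rw [Finset.sum_neg_distrib] at key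
    omega

end Pool.Agent.Helper61.LM
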